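import Pool.Agent.N198.NF.Def
import Pool.Agent.H916K.Sign
import Mathlib.FieldTheory.Finite.Extension

/-!
# Even parities of Tate classes over number fields

Project NF (helper198), parts GP and PAR: adapted from `Pool.Agent.H916K.Pure` and
`Pool.Agent.H916K.Sign`.
-/

set_option autoImplicit false
set_option linter.unusedSectionVars false

namespace Pool.Agent.N279.NF

open Finset NumberField Pool.Agent.N198.NF
open Pool.Agent.H916K (exists_root mulChar_one AI exists_red pow_one_of_char mulChar_pow_one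
  mulChar_pow_apply red_val exists_prime prod_signs)

lemma trace_zero_pow {K F : Type} [Field K] [Fintype K] [Field F] [Fintype F] [Algebra K F]
    (hcard : Fintype.card F = Fintype.card K ^ 2) {x : F}
    (hx : Algebra.trace K F x = 0) : x ^ Fintype.card K = - x := by
  have h1 := FiniteField.algebraMap_trace_eq_sum_pow K F x
  have h2 : Module.finrank K F = 2 := by
    have h3 := Module.card_eq_pow_finrank (K := K) (V := F)
    rw [hcard] at h3
    exact (Nat.pow_right_injective (Fintype.one_lt_card (α := K)) h3).symm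
  rw [hx, map_zero, h2, sum_range_succ, sum_range_one, Nat.card_eq_fintype_card] at h1
  simp only [pow_zero, pow_one] at h1
  linear_combination -h1

/-- **Pure Gauss sums.** -/
theorem gauss_pure {K F : Type} [Field K] [Fintype K] [Field F] [Fintype F] [Algebra K F]
    {R : Type} [CommRing R] [IsDomain R] [CharZero R]
    (hcard : Fintype.card F = Fintype.card K ^ 2) {M : ℕ} (hM : 2 * M ∣ Fintype.card K + 1)
    {χ : MulChar F R} (hχ : χ ^ M = 1) (hχ1 : χ ≠ 1) {ψ0 : AddChar K R} (hψ : ψ0 ≠ 1) :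
    gaussSum χ (ψ0.compAddMonoidHom (Algebra.trace K F).toAddMonoidHom) = Fintype.card K := by
  classical
  have hℓ2 : 2 ≤ Fintype.card K := Fintype.one_lt_card
  have htz : ∀ {x : F}, Algebra.trace K F x = 0 → x ^ Fintype.card K = - x :=
    fun hx => trace_zero_pow hcard hx
  obtain ⟨ℓ, hℓK⟩ : ∃ ℓ : ℕ, ℓ = Fintype.card K := ⟨_, rfl⟩
  rw [← hℓK] at hcard hM hℓ2 htz ⊢
  set Tr : F → K := fun x => Algebra.trace K F x with hTr
  set ψ := ψ0.compAddMonoidHom (Algebra.trace K F).toAddMonoidHom with hψdef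
  have hψa : ∀ x, ψ x = ψ0 (Tr x) := fun x => rfl
  have hprim : ψ0.IsPrimitive := AddChar.IsPrimitive.of_ne_one hψ
  have hval : ∀ y : F, y ≠ 0 → χ y ^ M = 1 := by
    intro y hy
    by_cases hM0 : M = 0
    · rw [hM0, pow_zero]
    · rw [← MulChar.pow_apply' χ hM0, hχ]
      exact MulChar.one_apply (isUnit_iff_ne_zero.mpr hy)
  have hcard1 : Fintype.card F - 1 = (ℓ - 1) * (ℓ + 1) := by
    rw [hcard]
    obtain ⟨k, rfl⟩ : ∃ k, ℓ = k + 1 := ⟨ℓ - 1, by omega⟩
    simp only [Nat.add_sub_cancel]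
    have : (k + 1) ^ 2 = k * (k + 1 + 1) + 1 := by ring
    omega
  -- the values on the small field
  have hpow : ∀ c : K, c ≠ 0 → c ^ (ℓ - 1) = 1 := by
    intro c hc
    rw [hℓK]
    exact FiniteField.pow_card_sub_one_eq_one c hc
  have hprime : ∀ c : K, c ≠ 0 → χ (algebraMap K F c) = 1 := by
    intro c hc
    have hc' : algebraMap K F c ≠ 0 := by
      rwa [Ne, map_eq_zero_iff _ (algebraMap K F).injective]
    refine mulChar_one (k := ℓ - 1) (n := ℓ + 1) (M := M) (by omega) hcard1.symm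
      (dvd_trans (Dvd.intro_left 2 rfl) hM) hc' ?_ χ hval
    rw [← map_pow, hpow c hc, map_one]
  -- the values on elements of trace zero
  have htrace : ∀ x : F, x ≠ 0 → Tr x = 0 → χ x = 1 := by
    intro x hx0 hx
    have h1 := htz hx
    have h2 : x ^ (2 * (ℓ - 1)) = 1 := by
      have h3 : x ^ (ℓ - 1) = -1 := by
        have : x * x ^ (ℓ - 1) = x * (-1) := by
          rw [← pow_succ', Nat.sub_add_cancel (by omega), h1]; ring
        exact mul_left_cancel₀ hx0 this
      rw [mul_comm, pow_mul, h3]; ring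
    obtain ⟨k, hk⟩ := hM
    refine mulChar_one (k := 2 * (ℓ - 1)) (n := M * k) (M := M) (by omega) ?_ (Dvd.intro k rfl) hx0 h2 χ hval
    rw [hcard1]
    have : 2 * (ℓ - 1) * (M * k) = (ℓ - 1) * (2 * M * k) := by ring
    rw [this, ← hk]
  -- two evaluations of a double sum
  have hA : ∑ c : K, gaussSum χ (ψ.mulShift (algebraMap K F c)) =
      ((ℓ : R) - 1) * gaussSum χ ψ := by
    have h0 : ∀ c : K, gaussSum χ (ψ.mulShift (algebraMap K F c)) =
        if c = 0 then 0 else gaussSum χ ψ := by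
      intro c
      split_ifs with hc
      · rw [hc, map_zero, AddChar.mulShift_zero]
        exact gaussSum_one_right hχ1
      · have hc' : algebraMap K F c ≠ 0 := by
          rwa [Ne, map_eq_zero_iff _ (algebraMap K F).injective]
        have h1 := gaussSum_mulShift χ ψ (Units.mk0 _ hc')
        rw [Units.val_mk0, hprime c hc, one_mul] at h1
        exact h1
    rw [sum_congr rfl fun c _ => h0 c, ← Finset.add_sum_erase _ _ (mem_univ (0 : K)), if_pos rfl,
      zero_add, sum_congr rfl (fun c hc => if_neg (ne_of_mem_erase hc)), sum_const,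
      card_erase_of_mem (mem_univ _), card_univ, ← hℓK, nsmul_eq_mul, Nat.cast_sub (by omega)]
    simp
  have hinner : ∀ x : F, ∑ c : K, ψ (algebraMap K F c * x) =
      if Tr x = 0 then (ℓ : R) else 0 := by
    intro x
    have h1 : ∀ c : K, ψ (algebraMap K F c * x) = ψ0 (c * Tr x) := by
      intro c
      rw [hψa]
      congr 1
      simp only [hTr]
      rw [← Algebra.smul_def, map_smul, smul_eq_mul]
    rw [sum_congr rfl fun c _ => h1 c, AddChar.sum_mulShift (Tr x) hprim, ← hℓK]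
    split_ifs <;> simp
  set N : ℕ := (univ.filter (fun x : F => Tr x = 0)).card with hN
  have hNval : (ℓ : R) * N = (ℓ : R) ^ 2 := by
    have h1 : ∑ x : F, ∑ c : K, ψ (algebraMap K F c * x) = (ℓ : R) * N := by
      rw [sum_congr rfl fun x _ => hinner x, ← Finset.sum_filter, sum_const, nsmul_eq_mul]
      ring
    have h2 : ∑ x : F, ∑ c : K, ψ (algebraMap K F c * x) = (ℓ : R) ^ 2 := by
      rw [sum_comm]
      have h3 : ∀ c : K, ∑ x : F, ψ (algebraMap K F c * x) =
          if c = 0 then ((ℓ : R) ^ 2) else 0 := by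
        intro c
        split_ifs with hc
        · rw [hc, map_zero]
          simp [hcard]
        · have hc' : algebraMap K F c ≠ 0 := by
            rwa [Ne, map_eq_zero_iff _ (algebraMap K F).injective]
          have hψ1 : ψ ≠ 1 := by
            intro h
            apply hψ
            ext c
            obtain ⟨x, hx⟩ := Algebra.trace_surjective K F c
            have h4 : ψ x = 1 := by rw [h]; rfl
            rw [hψa] at h4
            rw [← hx]
            exact h4
          have := AddChar.sum_eq_zero_of_ne_one hψ1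
          rw [← this]
          exact Fintype.sum_bijective (fun x => algebraMap K F c * x)
            (mulLeft_bijective₀ _ hc') _ _ fun x => rfl
      rw [sum_congr rfl fun c _ => h3 c]
      simp
    rw [← h1, h2]
  have hℓR : (ℓ : R) ≠ 0 := by exact_mod_cast (by omega : ℓ ≠ 0)
  have hN2 : (N : R) = ℓ := by
    apply mul_left_cancel₀ hℓR
    rw [hNval]; ring
  have hB : ∑ c : K, gaussSum χ (ψ.mulShift (algebraMap K F c)) =
      (ℓ : R) * ((ℓ : R) - 1) := by
    unfold gaussSum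
    rw [sum_comm]
    have h1 : ∀ x : F, ∑ c : K, χ x * (ψ.mulShift (algebraMap K F c)) x =
        if Tr x = 0 then (if x = 0 then 0 else (ℓ : R)) else 0 := by
      intro x
      rw [← mul_sum]
      have h2 : ∑ c : K, (ψ.mulShift (algebraMap K F c)) x = if Tr x = 0 then (ℓ : R) else 0 := by
        rw [← hinner x]
        exact sum_congr rfl fun c _ => AddChar.mulShift_apply
      rw [h2]
      by_cases hx : Tr x = 0
      · rw [if_pos hx, if_pos hx]
        by_cases hx0 : x = 0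
        · rw [if_pos hx0, hx0, MulChar.map_zero, zero_mul]
        · rw [if_neg hx0, htrace x hx0 hx, one_mul]
      · rw [if_neg hx, if_neg hx, mul_zero]
    rw [sum_congr rfl fun x _ => h1 x, ← Finset.sum_filter]
    have h0mem : (0 : F) ∈ univ.filter (fun x : F => Tr x = 0) := by simp [hTr]
    rw [← Finset.add_sum_erase _ _ h0mem, if_pos rfl, zero_add,
      sum_congr rfl (fun x hx => if_neg (ne_of_mem_erase hx)), sum_const, card_erase_of_mem h0mem,
      nsmul_eq_mul, ← hN, Nat.cast_sub (by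
        have : 0 < N := card_pos.mpr ⟨0, h0mem⟩
        omega), hN2]
    push_cast; ring
  rw [hA] at hB
  have hℓ1 : (ℓ : R) - 1 ≠ 0 := by
    have : ((ℓ - 1 : ℕ) : R) ≠ 0 := by
      exact_mod_cast (by omega : ℓ - 1 ≠ 0)
    rwa [Nat.cast_sub (by omega), Nat.cast_one] at this
  apply mul_left_cancel₀ hℓ1
  rw [hB]; ring


lemma card_fac {K F : Type} [Fintype K] [Fintype F]
    (hcard : Fintype.card F = Fintype.card K ^ 2) :
    (Fintype.card K - 1) * (Fintype.card K + 1) = Fintype.card F - 1 := by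
  rw [hcard]
  rcases Nat.eq_zero_or_pos (Fintype.card K) with h | h
  · rw [h]; rfl
  · obtain ⟨k, hk⟩ : ∃ k, Fintype.card K = k + 1 := ⟨Fintype.card K - 1, by omega⟩
    rw [hk]
    simp only [Nat.add_sub_cancel]
    have : (k + 1) ^ 2 = k * (k + 1 + 1) + 1 := by ring
    omega

section

variable {K F : Type} [Field K] [Fintype K] [Field F] [Fintype F] [Algebra K F]
  {A : Type} [CommRing A] [IsDomain A] [CharZero A] {κ : Type} [Field κ] {q : ℕ} [Fact q.Prime]
  [CharP κ q] (φ : A →+* κ)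

include q in
lemma red_coef {M b : ℕ} (hcard : Fintype.card F = Fintype.card K ^ 2)
    (hM : M ∣ Fintype.card K + 1) {χ : MulChar F A} (hχ : orderOf χ = M * q ^ b) {c : K}
    (hc : c ≠ 0) (a : ℕ) : φ ((χ ^ a) (algebraMap K F c)) = 1 := by
  have hℓ2 : 2 ≤ Fintype.card K := Fintype.one_lt_card
  have hc' : algebraMap K F c ≠ 0 := by
    rwa [Ne, map_eq_zero_iff _ (algebraMap K F).injective]
  have h3 : (χ.ringHomComp φ) (algebraMap K F c) = 1 := by
    refine mulChar_one (k := Fintype.card K - 1) (n := Fintype.card K + 1) (M := M) (by omega)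
      (card_fac hcard) hM hc' ?_ _ ?_
    · rw [← map_pow, FiniteField.pow_card_sub_one_eq_one c hc, map_one]
    · intro y hy
      rw [MulChar.ringHomComp_apply]
      exact red_val (q := q) φ hχ hy
  rw [MulChar.ringHomComp_apply] at h3
  rw [mulChar_pow_apply χ a hc', map_pow, h3, one_pow]

include q in
theorem red_gauss (hcard : Fintype.card F = Fintype.card K ^ 2) {M b : ℕ}
    (hM : 2 * M ∣ Fintype.card K + 1) (hcop : M.Coprime q) (hℓq : (Fintype.card K : κ) = 1)
    {χ : MulChar F A} (hχ : orderOf χ = M * q ^ b) {ψ0 : AddChar K A} (hψ : ψ0 ≠ 1) (a : ℕ) :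
    φ (gaussSum (χ ^ a) (ψ0.compAddMonoidHom (Algebra.trace K F).toAddMonoidHom)) =
      if M ∣ a then -1 else 1 := by
  classical
  set ψ := ψ0.compAddMonoidHom (Algebra.trace K F).toAddMonoidHom with hψdef
  have hψ1 : ψ ≠ 1 := by
    intro h
    apply hψ
    ext c
    obtain ⟨x, hx⟩ := Algebra.trace_surjective K F c
    have h4 : ψ x = 1 := by rw [h]; rfl
    rw [← hx]
    exact h4
  have hsame : ∀ a' : ℕ, a ≡ a' [MOD M] →
      φ (gaussSum (χ ^ a) ψ) = φ (gaussSum (χ ^ a') ψ) := by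
    intro a' haa'
    unfold gaussSum
    rw [map_sum, map_sum]
    refine sum_congr rfl fun x _ => ?_
    rw [map_mul, map_mul]
    congr 1
    by_cases hx : x = 0
    · rw [hx, MulChar.map_zero, MulChar.map_zero]
    · rw [mulChar_pow_apply χ a hx, mulChar_pow_apply χ a' hx, map_pow, map_pow]
      exact pow_eq_pow_of_modEq haa' (red_val (q := q) φ hχ hx)
  split_ifs with h
  · have h1 : a ≡ 0 [MOD M] := (Nat.modEq_zero_iff_dvd).mpr h
    rw [hsame 0 h1, pow_zero, gaussSum_one_left hψ1, map_neg, map_one]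
  · have hcop' : M.Coprime (q ^ b) := hcop.pow_right b
    set a' : ℕ := (Nat.chineseRemainder hcop' a 0 : ℕ) with ha'
    have h1 : a' ≡ a [MOD M] := (Nat.chineseRemainder hcop' a 0).2.1
    have h2 : a' ≡ 0 [MOD q ^ b] := (Nat.chineseRemainder hcop' a 0).2.2
    rw [Nat.modEq_zero_iff_dvd] at h2
    rw [hsame a' h1.symm]
    have h3 : (χ ^ a') ^ M = 1 := by
      rw [← pow_mul, ← orderOf_dvd_iff_pow_eq_one, hχ, mul_comm]
      exact Nat.mul_dvd_mul_right h2 M
    have h4 : χ ^ a' ≠ 1 := by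
      intro h5
      apply h
      have h6 : M ∣ a' := (Dvd.intro _ rfl : M ∣ M * q ^ b).trans (hχ ▸ orderOf_dvd_of_pow_eq_one h5)
      exact (Nat.modEq_zero_iff_dvd).mp (h1.symm.trans ((Nat.modEq_zero_iff_dvd).mpr h6))
    rw [gauss_pure hcard hM h3 h4 hψ, map_natCast, hℓq]

end

/-- the integers `d ≤ D` are squares modulo `ℓ` -/
lemma squares {D ℓ q P : ℕ} (hℓ : ℓ.Prime) (hq : q.Prime) (hq4 : q % 4 = 1)
    (hP : ∀ p : ℕ, p.Prime → p ≤ D → p ≠ q → p ∣ P) (h8 : 8 ∣ ℓ + 1) (hPℓ : P ∣ ℓ + 1)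
    (hℓq : ((ℓ : ℕ) : ZMod q) = 1) : ∀ d : ℕ, d ≤ D → IsSquare ((d : ℕ) : ZMod ℓ) := by
  have : Fact ℓ.Prime := ⟨hℓ⟩
  have : Fact q.Prime := ⟨hq⟩
  have hℓ2 : ℓ ≠ 2 := by
    rintro rfl
    omega
  have hprime : ∀ p : ℕ, p.Prime → p ≤ D → IsSquare ((p : ℕ) : ZMod ℓ) := by
    intro p hp hpD
    have : Fact p.Prime := ⟨hp⟩
    by_cases hpq : p = q
    · rw [hpq, ← ZMod.exists_sq_eq_prime_iff_of_mod_four_eq_one (p := q) (q := ℓ) hq4 hℓ2, hℓq]
      exact ⟨1, by ring⟩
    by_cases hp2 : p = 2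
    · rw [hp2]
      have := (ZMod.exists_sq_eq_two_iff (p := ℓ) hℓ2).2 (Or.inr (by omega))
      exact_mod_cast this
    have hdvd : p ∣ ℓ + 1 := (hP p hp hpD hpq).trans hPℓ
    have hneg : ((ℓ : ℕ) : ZMod p) = -1 := by
      have : ((ℓ + 1 : ℕ) : ZMod p) = 0 := (ZMod.natCast_eq_zero_iff _ _).2 hdvd
      push_cast at this
      linear_combination this
    have hodd : p % 2 = 1 := (Nat.Prime.mod_two_eq_one_iff_ne_two (p := p) hp).2 hp2
    have h4 : p % 4 = 1 ∨ p % 4 = 3 := by omega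
    rcases h4 with h4 | h4
    · rw [← ZMod.exists_sq_eq_prime_iff_of_mod_four_eq_one (p := p) (q := ℓ) h4 hℓ2, hneg,
        ZMod.exists_sq_eq_neg_one_iff]
      omega
    · have hne : ℓ ≠ p := by
        rintro rfl
        have h5 : ℓ ∣ 1 := (Nat.dvd_add_right (dvd_refl ℓ)).1 hdvd
        exact hℓ.one_lt.ne' (Nat.dvd_one.1 h5)
      rw [ZMod.exists_sq_eq_prime_iff_of_mod_four_eq_three (p := ℓ) (q := p) (by omega) h4 hne,
        hneg, ZMod.exists_sq_eq_neg_one_iff]
      omega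
  intro d
  induction d using Nat.strong_induction_on with
  | _ d ih =>
    intro hd
    rcases Nat.lt_or_ge d 2 with h | h
    · interval_cases d
      · exact ⟨0, by simp⟩
      · exact ⟨1, by simp⟩
    · have h1 : d.minFac.Prime := Nat.minFac_prime (by omega)
      have h2 : d.minFac * (d / d.minFac) = d := Nat.mul_div_cancel' (Nat.minFac_dvd d)
      have h3 : d / d.minFac < d := Nat.div_lt_self (by omega) h1.one_lt
      rw [← h2, Nat.cast_mul]
      exact (hprime _ h1 ((Nat.minFac_le (by omega)).trans hd)).mul (ih _ h3 (by omega))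

lemma exists_ext (K : Type) [Field K] [Fintype K] (ℓ : ℕ) [Fact ℓ.Prime] [CharP K ℓ] :
    ∃ (F : Type) (_ : Field F) (_ : Fintype F) (_ : Algebra K F),
      Fintype.card F = Fintype.card K ^ 2 := by
  refine ⟨FiniteField.Extension K ℓ 2, inferInstance, Fintype.ofFinite _, inferInstance, ?_⟩
  rw [Fintype.card_eq_nat_card, FiniteField.natCard_extension, Nat.card_eq_fintype_card]

lemma charP_of_card {K : Type} [Field K] [Fintype K] {ℓ e : ℕ} (hℓ : ℓ.Prime) (he : e ≠ 0)
    (h : Fintype.card K = ℓ ^ e) : CharP K ℓ := by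
  obtain ⟨n, hp, hn⟩ := FiniteField.card K (ringChar K)
  rw [h] at hn
  have h1 : ℓ ∣ ringChar K ^ (n : ℕ) := hn ▸ dvd_pow_self ℓ he
  have h2 : ℓ = ringChar K := (Nat.prime_dvd_prime_iff_eq hℓ hp).1 (hℓ.dvd_of_dvd_pow h1)
  rw [h2]
  infer_instance

lemma exists_addChar (K : Type) [Field K] [Fintype K] (ℓ : ℕ) [Fact ℓ.Prime] [CharP K ℓ]
    {A : Type} [CommRing A] [IsDomain A] {ξ : A} (hξ : IsPrimitiveRoot ξ ℓ) :
    ∃ ψ : AddChar K A, ψ ≠ 1 := by
  letI : Algebra (ZMod ℓ) K := ZMod.algebra K ℓ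
  have hℓ : ℓ.Prime := Fact.out
  refine ⟨(AddChar.zmodChar ℓ hξ.pow_eq_one).compAddMonoidHom
    (Algebra.trace (ZMod ℓ) K).toAddMonoidHom, ?_⟩
  intro h
  obtain ⟨x, hx⟩ := Algebra.trace_surjective (ZMod ℓ) K 1
  have h1 : (AddChar.zmodChar ℓ hξ.pow_eq_one) (Algebra.trace (ZMod ℓ) K x) = 1 :=
    DFunLike.congr_fun h x
  rw [hx, AddChar.zmodChar_apply] at h1
  have : Fact (1 < ℓ) := ⟨hℓ.one_lt⟩
  rw [ZMod.val_one, pow_one] at h1
  exact hξ.ne_one hℓ.one_lt h1

lemma map_ne_zero_of_norm {k : Type} [Field k] [NumberField k] {K : Type} [Field K] {ℓ : ℕ}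
    [CharP K ℓ] (f0 : 𝓞 k →+* K) {c : 𝓞 k} (hc : c ≠ 0)
    (h : Ideal.absNorm (Ideal.span {c}) < ℓ) : f0 c ≠ 0 := by
  intro h0
  have h1 := Ideal.absNorm_mem (Ideal.span {c})
  rw [Ideal.mem_span_singleton] at h1
  obtain ⟨d, hd⟩ := h1
  have h2 : ((Ideal.absNorm (Ideal.span {c}) : ℕ) : K) = 0 := by
    rw [← map_natCast f0, hd, map_mul, h0, zero_mul]
  rw [CharP.cast_eq_zero_iff K ℓ] at h2
  have h3 : Ideal.absNorm (Ideal.span {c}) ≠ 0 := by
    rw [Ne, Ideal.absNorm_eq_zero_iff, Ideal.span_singleton_eq_bot]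
    exact hc
  exact absurd (Nat.le_of_dvd (Nat.pos_of_ne_zero h3) h2) (by omega)

/-- **Parity.** -/
theorem even_of_tate {k : Type} [Field k] [NumberField k] (hk : OddPrimes k) {m M q b : ℕ}
    (hm : m = M * q ^ b) (hM : 3 ≤ M) (hq : q.Prime) (hq4 : q % 4 = 1) (hcop : M.Coprime q)
    {s : Multiset (ZMod m × 𝓞 k)} (hc : ∀ z ∈ s, z.2 ≠ 0) (hT : TateClass k m s) :
    Even (s.countP fun z => M ∣ z.1.val) := by
  classical
  obtain ⟨N, hN⟩ := hT
  obtain ⟨D, hD⟩ := hk
  have hq2 : q ≠ 2 := by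
    rintro rfl
    omega
  obtain ⟨P, hPdef⟩ : ∃ P : ℕ,
    P = ∏ p ∈ (Finset.range (D + 1)).filter (fun p => p.Prime ∧ p ≠ q), p := ⟨_, rfl⟩
  have hPpos : 0 < P := by
    rw [hPdef]
    exact Finset.prod_pos fun p hp => (Finset.mem_filter.1 hp).2.1.pos
  have hPcop : P.Coprime q := by
    rw [hPdef]
    refine Nat.Coprime.prod_left fun p hp => ?_
    exact (Nat.coprime_primes (Finset.mem_filter.1 hp).2.1 hq).2 (Finset.mem_filter.1 hp).2.2
  have h2q : Nat.Coprime 2 q := (Nat.coprime_primes Nat.prime_two hq).2 (fun h => hq2 h.symm)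
  have hM'cop : (2 * 2 * M * P).Coprime q :=
    Nat.Coprime.mul_left (Nat.Coprime.mul_left (Nat.Coprime.mul_left h2q h2q) hcop) hPcop
  obtain ⟨ℓ, hℓN, hℓ, hℓM', hℓq⟩ := exists_prime (M := 2 * 2 * M * P) (b := b + 1)
    (by positivity) hq hq2 hM'cop
    (N + D + (s.map fun z => Ideal.absNorm (Ideal.span {z.2})).sum)
  have : Fact ℓ.Prime := ⟨hℓ⟩
  have : Fact q.Prime := ⟨hq⟩
  have hℓ2 := hℓ.two_le
  have h8 : 8 ∣ ℓ + 1 := (Dvd.intro (M * P) (by ring)).trans hℓM'
  have hPℓ : P ∣ ℓ + 1 := (Dvd.intro (2 * (2 * 2 * M)) (by ring)).trans hℓM'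
  have hMℓ0 : 2 * M ∣ ℓ + 1 := (Dvd.intro (2 * 2 * P) (by ring)).trans hℓM'
  have hqℓ1 : q ^ (b + 1) ∣ ℓ - 1 := by
    have h1 : ((ℓ - 1 : ℕ) : ZMod (q ^ (b + 1))) = 0 := by
      rw [Nat.cast_sub (by omega), hℓq]; simp
    exact (ZMod.natCast_eq_zero_iff _ _).mp h1
  have hℓq1 : ((ℓ : ℕ) : ZMod q) = 1 := by
    have h1 : ((ℓ - 1 : ℕ) : ZMod q) = 0 :=
      (ZMod.natCast_eq_zero_iff _ _).mpr ((dvd_pow_self q (by omega)).trans hqℓ1)
    rw [Nat.cast_sub (by omega), Nat.cast_one] at h1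
    exact sub_eq_zero.mp h1
  obtain ⟨K, _, _, f0, hf0, e, he, hcardK⟩ := hD ℓ hℓ (by omega)
    (squares hℓ hq hq4 (P := P) (fun p hp hpD hpq => by
      rw [hPdef]
      exact Finset.dvd_prod_of_mem (fun p => p)
        (Finset.mem_filter.2 ⟨Finset.mem_range.2 (by omega), hp, hpq⟩)) h8 hPℓ hℓq1)
  have he0 : e ≠ 0 := by
    rintro rfl
    exact absurd he (by decide)
  have : CharP K ℓ := charP_of_card hℓ he0 hcardK
  obtain ⟨F, _, _, _, hcard⟩ := exists_ext K ℓ
  obtain ⟨Q, hQ⟩ : ∃ Q : ℕ, Q = Fintype.card K := ⟨_, rfl⟩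
  have hQ2 : 2 ≤ Q := by
    rw [hQ]
    exact Fintype.one_lt_card
  have hQM : 2 * M ∣ Q + 1 := by
    have h1 := Odd.nat_add_dvd_pow_add_pow ℓ 1 he
    rw [one_pow] at h1
    rw [hQ, hcardK]
    exact hMℓ0.trans h1
  have hMQ : M ∣ Q + 1 := (Dvd.intro_left 2 rfl).trans hQM
  have hqQ : q ^ (b + 1) ∣ Q - 1 := by
    have h1 := Nat.sub_dvd_pow_sub_pow ℓ 1 e
    rw [one_pow] at h1
    rw [hQ, hcardK]
    exact hqℓ1.trans h1
  have hqb : q ^ b ∣ Q - 1 := (pow_dvd_pow q (Nat.le_succ b)).trans hqQ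
  have hcardF : Fintype.card F = Q ^ 2 := by rw [hcard, hQ]
  have hfac : Q ^ 2 - 1 = (Q + 1) * (Q - 1) := by
    obtain ⟨k, rfl⟩ : ∃ k, Q = k + 1 := ⟨Q - 1, by omega⟩
    simp only [Nat.add_sub_cancel]
    have : (k + 1) ^ 2 = (k + 1 + 1) * k + 1 := by ring
    omega
  have hmdvd : m ∣ Q ^ 2 - 1 := by
    rw [hfac, hm]; exact Nat.mul_dvd_mul hMQ hqb
  have hord : orderOf (Q : ZMod m) = 2 := by
    have : Fact (Nat.Prime 2) := ⟨Nat.prime_two⟩
    apply orderOf_eq_prime
    · have h1 : ((Q ^ 2 - 1 : ℕ) : ZMod m) = 0 := (ZMod.natCast_eq_zero_iff _ _).mpr hmdvd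
      rw [Nat.cast_sub (Nat.one_le_pow _ _ (by omega))] at h1
      push_cast at h1
      linear_combination h1
    · intro h1
      have h2 : ((Q - 1 : ℕ) : ZMod m) = 0 := by
        rw [Nat.cast_sub (by omega), h1]; simp
      have h3 : m ∣ Q - 1 := (ZMod.natCast_eq_zero_iff _ _).mp h2
      have h4 : M ∣ Q - 1 := (hm ▸ Dvd.intro _ rfl : M ∣ m).trans h3
      have h5 : M ∣ (Q + 1) - (Q - 1) := Nat.dvd_sub hMQ h4
      have h6 : (Q + 1) - (Q - 1) = 2 := by omega
      rw [h6] at h5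
      have := Nat.le_of_dvd (by norm_num) h5
      omega
  obtain ⟨κ, _, _, ⟨φ⟩⟩ := exists_red hq
  -- roots of unity
  have hinj : Function.Injective (algebraMap AI ℂ) := Subtype.val_injective
  have hroot : ∀ n : ℕ, n ≠ 0 → ∃ ζ : AI, IsPrimitiveRoot ζ n := by
    intro n hn
    have h1 := Complex.isPrimitiveRoot_exp n hn
    have h2 : IsIntegral ℤ (Complex.exp (2 * Real.pi * Complex.I / n)) :=
      h1.isIntegral (Nat.pos_of_ne_zero hn)
    refine ⟨⟨_, h2⟩, ?_⟩
    exact IsPrimitiveRoot.of_map_of_injective (f := algebraMap AI ℂ) h1 hinj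
  have hm0 : m ≠ 0 := by
    rw [hm]; have := hq.pos; positivity
  obtain ⟨ζ, hζ⟩ := hroot m hm0
  obtain ⟨ξ, hξ⟩ := hroot ℓ hℓ.ne_zero
  obtain ⟨χ, hχ⟩ := MulChar.exists_mulChar_orderOf F (n := m)
    (by rw [hcardF]; exact hmdvd) hζ
  obtain ⟨ψ0, hψ1⟩ := exists_addChar K ℓ hξ
  set ψ := ψ0.compAddMonoidHom (Algebra.trace K F).toAddMonoidHom with hψdef
  have hψ2 : ψ ≠ 1 := by
    intro h
    apply hψ1
    ext c
    obtain ⟨x, hx⟩ := Algebra.trace_surjective K F c
    have h4 : ψ x = 1 := by rw [h]; rfl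
    rw [← hx]
    exact congrArg _ h4
  -- transfer to the complex numbers
  set χ' : MulChar F ℂ := χ.ringHomComp (algebraMap AI ℂ) with hχ'
  set ψ' : AddChar F ℂ := (algebraMap AI ℂ).toMonoidHom.compAddChar ψ with hψ'
  have hordχ : orderOf χ' = m := by
    rw [← hχ]
    exact orderOf_injective (MulChar.ringHomCompHom (algebraMap AI ℂ))
      (MulChar.injective_ringHomComp hinj) χ
  have hψ'1 : ψ' ≠ 1 := by
    intro h
    apply hψ2
    ext x
    have h1 : ψ' x = 1 := by rw [h]; rfl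
    exact h1
  obtain ⟨f, hf⟩ : ∃ f : 𝓞 k →+* F, f = (algebraMap K F).comp f0 := ⟨_, rfl⟩
  have hfa : ∀ c : 𝓞 k, f c = algebraMap K F (f0 c) := fun c => by rw [hf]; rfl
  have hrange : Nat.card f.range = Q := by
    have h1 : f.range = (algebraMap K F).range := by
      ext x
      constructor
      · rintro ⟨y, hy⟩
        exact ⟨f0 y, by rw [← hfa]; exact hy⟩
      · rintro ⟨y, hy⟩
        obtain ⟨z, rfl⟩ := hf0 y
        exact ⟨z, by rw [hfa]; exact hy⟩
    rw [h1, hQ, ← Nat.card_eq_fintype_card]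
    exact (Nat.card_congr (Equiv.ofBijective (algebraMap K F).rangeRestrict
      ⟨fun x y h => (algebraMap K F).injective (congrArg Subtype.val h),
        RingHom.rangeRestrict_surjective _⟩)).symm
  have hchar : ringChar F = ℓ := by
    rw [← Algebra.ringChar_eq K F, ringChar.eq_iff]
    infer_instance
  have h1 := hN F f (by rw [hchar]; omega) (by rw [hrange, hord]; exact hcardF) χ' ψ' hordχ hψ'1
  have hg : ∀ a : ℕ, gaussSum (χ' ^ a) ψ' = algebraMap AI ℂ (gaussSum (χ ^ a) ψ) := by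
    intro a
    unfold gaussSum
    rw [map_sum]
    refine sum_congr rfl fun x _ => ?_
    rw [map_mul, hχ', MulChar.ringHomComp_pow, MulChar.ringHomComp_apply]
    rfl
  have hcoef : ∀ (a : ℕ) (c : F), (χ' ^ a) c = algebraMap AI ℂ ((χ ^ a) c) := by
    intro a c
    rw [hχ', MulChar.ringHomComp_pow, MulChar.ringHomComp_apply]
  have h2 : (s.map fun z => gaussSum (χ ^ z.1.val) ψ).prod =
      (Fintype.card F : AI) ^ (Multiset.card s / 2) *
        (s.map fun z => (χ ^ z.1.val) (f z.2)).prod := by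
    apply hinj
    rw [map_mul, map_pow, map_natCast, map_multiset_prod, map_multiset_prod, Multiset.map_map,
      Multiset.map_map]
    have e1 : (s.map ((algebraMap AI ℂ) ∘ fun z => gaussSum (χ ^ z.1.val) ψ)) =
        s.map fun z => gaussSum (χ' ^ z.1.val) ψ' :=
      Multiset.map_congr rfl fun z _ => (hg _).symm
    have e2 : (s.map ((algebraMap AI ℂ) ∘ fun z => (χ ^ z.1.val) (f z.2))) =
        s.map fun z => (χ' ^ z.1.val) (f z.2) :=
      Multiset.map_congr rfl fun z _ => (hcoef _ _).symm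
    rw [e1, e2]
    exact h1
  have hQk : ((Q : ℕ) : κ) = 1 := by
    have h3 : ((Q - 1 : ℕ) : κ) = 0 := by
      rw [CharP.cast_eq_zero_iff κ q]
      exact (dvd_pow_self q (by omega)).trans hqQ
    rw [Nat.cast_sub (by omega), Nat.cast_one] at h3
    exact sub_eq_zero.mp h3
  have hχm : orderOf χ = M * q ^ b := by rw [hχ, hm]
  have h3 := congrArg φ h2
  rw [map_mul, map_pow, map_natCast, map_multiset_prod, map_multiset_prod, Multiset.map_map,
    Multiset.map_map] at h3
  have e1 : (s.map (φ ∘ fun z => gaussSum (χ ^ z.1.val) ψ)) =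
      s.map fun z => if M ∣ z.1.val then (-1 : κ) else 1 :=
    Multiset.map_congr rfl fun z _ =>
      red_gauss φ hcard (hQ ▸ hQM) hcop (hQ ▸ hQk) hχm hψ1 _
  have e2 : (s.map (φ ∘ fun z => (χ ^ z.1.val) (f z.2))) = s.map fun _ => (1 : κ) := by
    refine Multiset.map_congr rfl fun z hz => ?_
    show φ ((χ ^ z.1.val) (f z.2)) = 1
    rw [hfa]
    refine red_coef φ hcard (hQ ▸ hMQ) hχm ?_ _
    apply map_ne_zero_of_norm (ℓ := ℓ) f0 (hc z hz)
    have : Ideal.absNorm (Ideal.span {z.2}) ≤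
        (s.map fun z => Ideal.absNorm (Ideal.span {z.2})).sum :=
      Multiset.single_le_sum (fun _ _ => Nat.zero_le _) _
        (Multiset.mem_map_of_mem (fun z : ZMod m × 𝓞 k => Ideal.absNorm (Ideal.span {z.2})) hz)
    omega
  rw [e1, e2, prod_signs, hcardF] at h3
  push_cast at h3
  rw [hQk, one_pow, one_pow, one_mul, Multiset.map_const', Multiset.prod_replicate, one_pow] at h3
  by_contra hodd
  rw [Nat.not_even_iff_odd] at hodd
  rw [hodd.neg_one_pow] at h3
  have h4 : ((2 : ℕ) : κ) = 0 := by push_cast; linear_combination -h3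
  rw [CharP.cast_eq_zero_iff κ q] at h4
  have := (Nat.prime_dvd_prime_iff_eq hq Nat.prime_two).mp h4
  exact hq2 this

end Pool.Agent.N279.NF
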